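import Pool.Agent.H30.EE.TargetsU
import Pool.Agent.H36.SC.V6
import Pool.Agent.H76.KN.V5

/-!
MP_70ba79_ag, board `ee_modules`, row UFR: the number of poles is the degree of the extension.
-/

set_option autoImplicit false

namespace Pool.Agent.H70.EE

open MvPolynomial SC Pool.Agent.H27.LV Pool.Agent.H17.VG Pool.Agent.H17.BO Pool.Agent.H30.EE

theorem deg_one {k K : Type} [Field k] [IsAlgClosed k] [Field K] [Algebra k K]
    (v : DV k K) [Module.Finite k v.Res] : v.deg = 1 := by
  unfold DV.deg
  have h := IsAlgClosed.algebraMap_bijective_of_isIntegral (k := k) (K := v.Res)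
  have e : k ≃ₗ[k] v.Res := LinearEquiv.ofBijective (Algebra.linearMap k v.Res) h
  rw [← e.finrank_eq, Module.finrank_self]

theorem h1_transc (hV5 : T_V5) {k K : Type} [Field k] [IsAlgClosed k] [CharZero k]
    [Field K] [Algebra k K] [Algebra.EssFiniteType k K] (htr : Algebra.trdeg k K = 1) (z : K)
    (hz : Transcendental k z) : h1 k z = Module.finrank (IntermediateField.adjoin k {z}) K := by
  obtain ⟨h1', h2, h3⟩ := hV5 k K z hz (Pool.Agent.H36.SC.fin_of_transc htr hz)
  have h4 : ∀ v : DV k K, (v.deg : ℤ) * max 0 (-v.ord z) =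
      ((poleOrder v (fun _ : Fin 1 => z) : ℕ) : ℤ) := by
    intro v
    have h5 : poleOrder v (fun _ : Fin 1 => z) = (-(v.ord z)).toNat := by
      unfold poleOrder
      simp
    rw [h5]
    by_cases hv : v.ord z < 0
    · haveI := h2 v hv
      rw [deg_one v]
      omega
    · rw [max_eq_left (by omega), mul_zero]
      omega
  rw [finsum_congr h4] at h3
  have hfin : (Function.support fun v : DV k K => poleOrder v (fun _ : Fin 1 => z)).Finite := by
    refine h1'.subset fun v hv => ?_
    rw [Function.mem_support] at hv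
    by_contra h
    apply hv
    have h5 : poleOrder v (fun _ : Fin 1 => z) = (-(v.ord z)).toNat := by
      unfold poleOrder
      simp
    rw [h5]
    have h6 : ¬ v.ord z < 0 := h
    omega
  have h7 : ((h1 k z : ℕ) : ℤ) = ∑ᶠ v : DV k K,
      ((poleOrder v (fun _ : Fin 1 => z) : ℕ) : ℤ) := by
    unfold h1 Pool.Agent.H27.LV.deg
    exact (Nat.castAddMonoidHom ℤ).map_finsum hfin
  rw [h3] at h7
  exact_mod_cast h7

theorem pf_UFR : T_UFR := by
  intro k E _ _ _ _ _ _ htr t ht
  have htt : Transcendental k t := by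
    intro halg
    refine ht ?_
    have hm : (minpoly k t).degree = 1 :=
      IsAlgClosed.degree_eq_one_of_irreducible k (minpoly.irreducible halg.isIntegral)
    exact minpoly.mem_range_of_degree_eq_one k t hm
  exact ⟨Pool.Agent.H36.SC.fin_of_transc htr htt, h1_transc Pool.Agent.H76.KN.v5 htr t htt⟩

end Pool.Agent.H70.EE
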