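import Pool.Agent.H17.EQ.TargetsQ
import Pool.Agent.H11.BO.TW2

/-!
MP_70ba79_ag, board `ee_modules`, row TZE: a curve with more than two zeros has three zeros.
-/

set_option autoImplicit false

namespace Pool.Agent.H70.EE

open MvPolynomial SC Pool.Agent.H27.LV Pool.Agent.H17.VG Pool.Agent.H17.BO Pool.Agent.H30.EE
  Pool.Agent.H17.EQ

section Curve

variable {K : Type} [Field K] {n r : ℕ}

theorem deg_le (w : Fin (r + 1) → K) :
    (∑ j, Polynomial.C (w j) * (Polynomial.X : Polynomial K) ^ (j : ℕ)).natDegree ≤ r := by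
  refine Polynomial.natDegree_sum_le_of_forall_le _ _ fun j _ => ?_
  exact (Polynomial.natDegree_C_mul_X_pow_le _ _).trans (Nat.lt_succ_iff.1 j.2)

theorem coeff_eq (w : Fin (r + 1) → K) (i : Fin (r + 1)) :
    (∑ j, Polynomial.C (w j) * (Polynomial.X : Polynomial K) ^ (j : ℕ)).coeff i = w i := by
  rw [Polynomial.finsetSum_coeff, Finset.sum_eq_single i]
  · simp
  · intro j _ hj
    rw [Polynomial.coeff_C_mul_X_pow, if_neg]
    exact fun h => hj (Fin.ext h.symm)
  · intro h
    exact absurd (Finset.mem_univ i) h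

theorem prod_top {ι : Type} (p : ι → Polynomial K) (hp : ∀ i, (p i).natDegree ≤ r) (m : ι → ℕ)
    (s : Finset ι) : (∏ i ∈ s, p i ^ m i).natDegree ≤ r * ∑ i ∈ s, m i ∧
      (∏ i ∈ s, p i ^ m i).coeff (r * ∑ i ∈ s, m i) = ∏ i ∈ s, (p i).coeff r ^ m i := by
  classical
  induction s using Finset.induction_on with
  | empty => simp
  | insert a s ha ih =>
    have h1 : (p a ^ m a).natDegree ≤ r * m a := by
      refine (Polynomial.natDegree_pow_le_of_le (m a) (hp a)).trans ?_
      rw [mul_comm]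
    have h2 : (p a ^ m a).coeff (r * m a) = (p a).coeff r ^ m a := by
      rw [mul_comm]
      exact Polynomial.coeff_pow_of_natDegree_le (hp a)
    rw [Finset.prod_insert ha, Finset.sum_insert ha, Finset.prod_insert ha, mul_add]
    exact ⟨(Polynomial.natDegree_mul_le_of_le h1 ih.1), by
      rw [Polynomial.coeff_mul_add_eq_of_natDegree_le h1 ih.1, h2, ih.2]⟩

theorem res_sum (z : Fin (r + 1) → Fin (n + 1) → K) (F : MvPolynomial (Fin (n + 1)) K) :
    resC z F = ∑ m ∈ F.support, Polynomial.C (coeff m F) *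
      ∏ i, (∑ j, Polynomial.C (z j i) * (Polynomial.X : Polynomial K) ^ (j : ℕ)) ^ m i := by
  unfold resC
  rw [aeval_def, eval₂_eq']
  rfl

theorem mem_deg {d : ℕ} {F : MvPolynomial (Fin (n + 1)) K} (hF : F.IsHomogeneous d)
    {m : Fin (n + 1) →₀ ℕ} (hm : m ∈ F.support) : ∑ i, m i = d := by
  have h := hF (mem_support_iff.1 hm)
  rw [← h, Finsupp.weight_apply, Finsupp.sum_fintype _ _ (fun _ => by simp)]
  simp

theorem res_deg {d : ℕ} {F : MvPolynomial (Fin (n + 1)) K} (hF : F.IsHomogeneous d)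
    (z : Fin (r + 1) → Fin (n + 1) → K) : (resC z F).natDegree ≤ r * d := by
  rw [res_sum]
  refine Polynomial.natDegree_sum_le_of_forall_le _ _ fun m hm => ?_
  refine (Polynomial.natDegree_C_mul_le _ _).trans ?_
  have h := (prod_top (r := r) (fun i => ∑ j, Polynomial.C (z j i) *
    (Polynomial.X : Polynomial K) ^ (j : ℕ)) (fun i => deg_le fun j => z j i) m Finset.univ).1
  rwa [mem_deg hF hm] at h

theorem res_top {d : ℕ} {F : MvPolynomial (Fin (n + 1)) K} (hF : F.IsHomogeneous d)
    (z : Fin (r + 1) → Fin (n + 1) → K) :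
    (resC z F).coeff (r * d) = eval (z (Fin.last r)) F := by
  rw [res_sum, Polynomial.finsetSum_coeff, eval_eq']
  refine Finset.sum_congr rfl fun m hm => ?_
  rw [Polynomial.coeff_C_mul]
  have h := (prod_top (r := r) (fun i => ∑ j, Polynomial.C (z j i) *
    (Polynomial.X : Polynomial K) ^ (j : ℕ)) (fun i => deg_le fun j => z j i) m Finset.univ).2
  rw [mem_deg hF hm] at h
  rw [h]
  refine congrArg _ (Finset.prod_congr rfl fun i _ => ?_)
  have h3 := coeff_eq (fun j => z j i) (Fin.last r)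
  rw [Fin.val_last] at h3
  rw [h3]

theorem res_zero (F : MvPolynomial (Fin (n + 1)) K) (z : Fin (r + 1) → Fin (n + 1) → K) :
    (resC z F).coeff 0 = eval (z 0) F := by
  rw [res_sum, Polynomial.coeff_zero_eq_eval_zero, Polynomial.eval_finsetSum, eval_eq']
  refine Finset.sum_congr rfl fun m _ => ?_
  rw [Polynomial.eval_mul, Polynomial.eval_C, Polynomial.eval_prod]
  refine congrArg _ (Finset.prod_congr rfl fun i _ => ?_)
  rw [Polynomial.eval_pow]
  have h3 := coeff_eq (fun j => z j i) 0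
  rw [Fin.val_zero, Polynomial.coeff_zero_eq_eval_zero] at h3
  rw [h3]

end Curve

theorem pf_TZE : T_TZE := by
  intro K _ _ n r d F z hF h0 hT
  by_contra hcon
  rw [not_or] at hcon
  obtain ⟨hc1, hc2⟩ := hcon
  apply hT
  obtain ⟨α, β, i, j, hij, h⟩ := Pool.Agent.H11.BO.pf_TW2 K (r * d) (resC z F) (res_deg hF z)
    (by rw [res_zero]; exact h0)
    (by
      intro α β γ hα hβ hγ
      by_contra hne
      rw [not_or, not_or] at hne
      exact hc1 ⟨α, β, γ, hne.1, hne.2.1, hne.2.2, hα, hβ, hγ⟩)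
    (by
      intro hlt α β hα hβ
      by_contra hne
      refine hc2 ⟨α, β, hne, hα, hβ, ?_⟩
      rw [← res_top hF z]
      exact Polynomial.coeff_eq_zero_of_natDegree_lt hlt)
  refine ⟨α, β, i, j, hij, ?_⟩
  rw [h, res_zero]

end Pool.Agent.H70.EE
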